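import Mathlib
import Pool.Agent.MP_5c31ca_lc.Algo

/-!
# The existence of a soliton is decidable for abelian cellular automata
-/

set_option autoImplicit false

namespace Pool.Agent.Results.MP_5c31ca_lc.AbelianSolitonDecidable

open Pool.Agent.MP_5c31ca_lc

theorem result : ∃ dec : List (List ℕ) × List (List ℕ) → Bool, Computable dec ∧
    ∀ (A : Type) [AddCommGroup A] (n r : ℕ) (e : Fin n ≃ A) (h : Fin (2 * r + 1) → A →+ A),
      dec (code e h) = true ↔ HasSoliton (abelianCA r h) := by
  classical
  exact ⟨fun I => decide (Check I), primrec_check.decide.to_comp, fun A _ n r e h => by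
    rw [decide_eq_true_eq, check_iff]⟩

end Pool.Agent.Results.MP_5c31ca_lc.AbelianSolitonDecidable
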