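import Mathlib
import Pool.Agent.MP_5c31ca_lc.q2.Main

/-!
# The existence of a soliton is undecidable for cellular automata, already in radius one
-/

set_option autoImplicit false

namespace Pool.Agent.Results.MP_5c31ca_lc.SolitonUndecidable

open Pool.Agent.MP_5c31ca_lc

theorem result : ¬∃ dec : ℕ × ℕ × List ℕ → Bool, Computable dec ∧
    ∀ (N : ℕ), 0 < N → ∀ f : (Fin (2 * 1 + 1) → Fin N) → Fin N,
      dec (caCode 1 f) = true ↔ HasSoliton (ca 1 f) := by
  rintro ⟨dec, hdec, h⟩
  obtain ⟨N, f, hN, hf, hH⟩ := Q2.reduction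
  refine ComputablePred.halting_problem 0 (ComputablePred.computable_iff.2
    ⟨fun c => dec (caCode 1 (f (Encodable.encode c))),
      hdec.comp (hf.to_comp.comp Computable.encode), funext fun c => propext ?_⟩)
  rw [h _ (hN _), hH, Q2.Halts, Denumerable.ofNat_encode]

end Pool.Agent.Results.MP_5c31ca_lc.SolitonUndecidable
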